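import Pool.Agent.V11251.DS.ArbI

/-!
# All prime pairs with short differences, continued by shifts with rearranged digits

The analytic input (the laws of the random integers, second moments of the error for one form with arbitrary weights) is
in the starting files `Pool.Agent.H373R2.T7`, `Pool.Agent.W93`, `Pool.Agent.TH872`; new are the systems of several forms
with arbitrary weights and the passage to primes (`Pool.Agent.V11251.DS`).
-/

set_option autoImplicit false

namespace Pool.Agent.Results.MP_678834_nt.RearrangedSetPairs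

open Finset

/-- `d` is a word of `k` digits in base `b`, in which no digit stands at more than `(1 - η) k` places. -/
def Mixed (b k : ℕ) (η : ℝ) (d : Fin k → ℕ) : Prop :=
  (∀ i, d i < b) ∧ ∀ a, ((univ.filter fun i => d i = a).card : ℝ) ≤ (1 - η) * k

/-- The integer whose `k` digits in base `b` are the digits `d` rearranged by the permutation `σ`: the digit number `j`
(the coefficient of `b ^ j`) is `d (σ j)`. -/
def rearranged (b : ℕ) {k : ℕ} (d : Fin k → ℕ) (σ : Equiv.Perm (Fin k)) : ℕ := ∑ j : Fin k, d (σ j) * b ^ (j : ℕ)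

open Classical in
/-- The sieve model of the indicator function of the primes: `1 / (log x ∏_{p ≤ z} (1 - 1 / p))` if `x ≥ 2` has no prime
factor `≤ z`, and `0` if `x = 0` or if `x` has a prime factor `≤ z` (for `x = 1` the logarithm is replaced by `log 2`). -/
noncomputable def model (z x : ℕ) : ℝ :=
  if 1 ≤ x ∧ ∀ p : ℕ, p.Prime → p ≤ z → ¬ p ∣ x then
    1 / (Real.log (max x 2 : ℕ) * ∏ p ∈ (Icc 1 z).filter Nat.Prime, (1 - 1 / (p : ℝ))) else 0

open Classical in
/-- The primes `p ≤ X` for which `p - d` is a prime. -/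
noncomputable def pairs (d X : ℕ) : Finset ℕ := (Icc 1 X).filter (fun p => p.Prime ∧ (p - d).Prime)

open Classical in
/-- The primes `p ≤ X` for which `p - d` and all the numbers `p + Y i` are primes. -/
noncomputable def continued {s : ℕ} (d : ℕ) (Y : Fin s → ℕ) (X : ℕ) : Finset ℕ :=
  (pairs d X).filter (fun p => ∀ i, (p + Y i).Prime)

/-- For all `1 ≤ d ≤ log ^ K N` and for all `X ≤ N`, the number of the primes `p ≤ X` for which `p - d` and all the
`p + Y i` are primes is equal to the sum of the products of the models of `p + Y i` over the primes `p ≤ X` for which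
`p - d` is a prime, up to an error of at most `N / log ^ U N`. -/
def Good {s : ℕ} (z K U N : ℕ) (Y : Fin s → ℕ) : Prop :=
  ∀ d : ℕ, 1 ≤ d → (d : ℝ) ≤ Real.log N ^ K → ∀ X ≤ N,
    |((continued d Y X).card : ℝ) - ∑ p ∈ pairs d X, ∏ i, model z (p + Y i)| ≤ N / Real.log N ^ U

open Classical in
/-- Let `s`, bases `b i ≥ 2`, `η > 0` and `κ i ≥ 1` (`i < s`), `B`, `K` and `U` be fixed, let `E` be a sufficiently large
exponent, let `N` be large, `log ^ E N ≤ z ≤ log ^ (E + 1) N`, let `k i` be lengths with `N / B ≤ b i ^ k i ≤ B N`, let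
`0 ≤ c i ≤ B N`, and let `d i` be ANY word of `k i` digits in base `b i` in which no digit stands at more than `(1 - η) k i`
places. Rearrange the digits of each `d i` by a permutation `σ i`, let `v i` be the integer with the rearranged digits, and
put `Y i = c i + κ i v i`. Then all the vectors `(σ 1, ..., σ s)` of permutations, with the exception of a proportion of at
most `1 / log ^ U N` of them, have the following property, for all `1 ≤ d ≤ log ^ K N` and
all `X ≤ N`: the number of the primes `p ≤ X` for which `p - d` and all the `p + Y i` are primes is the number predicted by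
the sieve model, up to an error of at most `N / log ^ U N`: the sum, over the primes `p ≤ X` for which `p - d` is a prime
and no `p + Y i` has a prime factor `≤ z`, of the products of the `1 / (log (p + Y i) ∏_{r ≤ z} (1 - 1 / r))`. -/
theorem result (s : ℕ) (b : Fin s → ℕ) (hb : ∀ i, 2 ≤ b i) (η : ℝ) (hη : 0 < η) (κ : Fin s → ℕ) (hκ : ∀ i, 1 ≤ κ i)
    (B K U : ℕ) :
    ∃ E₀ : ℕ, ∀ E : ℕ, E₀ ≤ E → ∃ N₀ : ℕ, ∀ N, N₀ ≤ N → ∀ k : Fin s → ℕ, (∀ i, N ≤ B * b i ^ k i ∧ b i ^ k i ≤ B * N) →
      ∀ d : ∀ i, Fin (k i) → ℕ, (∀ i, Mixed (b i) (k i) η (d i)) →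
      ∀ c : Fin s → ℕ, (∀ i, c i ≤ B * N) → ∀ z : ℕ, Real.log N ^ E ≤ z → (z : ℝ) ≤ Real.log N ^ (E + 1) →
      ((univ.filter fun σ : ∀ i, Equiv.Perm (Fin (k i)) =>
        ¬ Good z K U N (fun i => c i + κ i * rearranged (b i) (d i) (σ i))).card : ℝ) ≤
      ((∏ i, (k i).factorial : ℕ) : ℝ) / Real.log N ^ U := by
  obtain ⟨E₀, h⟩ := Pool.Agent.V11251.DS.idx_perm s b hb η hη (fun i => (κ i : ℤ)) (fun _ => 1)
    (fun i => by have := hκ i; exact_mod_cast (by omega : κ i ≠ 0)) (fun _ => by norm_num) B K U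
  refine ⟨E₀, fun E hE => ?_⟩
  obtain ⟨N₀, h1⟩ := h E hE
  refine ⟨N₀ + 8, fun N hN k hk d hd c hc z hz1 hz2 => ?_⟩
  have hlog : 2 ≤ Real.log N := by
    have h8 : Real.log 8 ≤ Real.log N := Real.log_le_log (by norm_num) (by exact_mod_cast (by omega : 8 ≤ N))
    have h9 : Real.log 8 = 3 * Real.log 2 := by rw [← Real.log_rpow (by norm_num)]; norm_num
    have := Real.log_two_gt_d9
    linarith
  rw [Nat.cast_prod]
  refine h1 N (by omega) k (fun i => ⟨(hk i).2, (hk i).1⟩) d (fun i => ⟨(hd i).1, (hd i).2⟩) (fun i => (c i : ℤ))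
    (fun i => by rw [abs_of_nonneg (by positivity)]; exact_mod_cast hc i)
    z hz1 hz2 (ℕ) (Icc 1 ⌊Real.log N ^ K⌋₊) (by rw [Nat.card_Icc, Nat.add_sub_cancel]; exact Nat.floor_le (by positivity)) (fun D => {n | n.Prime ∧ (n - D).Prime}) (fun σ => Good z K U N (fun i => c i + κ i * rearranged (b i) (d i) (σ i))) (fun σ hv => ?_)
  intro e he1 he2 X hX
  have h2 := hv e (by rw [mem_Icc]; exact ⟨he1, Nat.le_floor he2⟩) X hX
  have e2 : ∀ i, (((c i + κ i * rearranged (b i) (d i) (σ i) : ℕ)) : ℤ) = (c i : ℤ) + (κ i : ℤ) * (((Pool.Agent.TH872.An.V (b i) (d i) (σ i) : ℕ) : ℕ) : ℤ) := fun i => by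
    push_cast; rfl
  rw [Pool.Agent.V11251.DS.DC_set' _ X z _ _ (pairs e X) (continued e (fun i => c i + κ i * rearranged (b i) (d i) (σ i)) X)
    (fun n => ∏ i, model z (n + (c i + κ i * rearranged (b i) (d i) (σ i))))] at h2
  · exact h2
  · intro n
    unfold pairs
    rw [mem_filter]
    exact Iff.rfl
  · intro n
    unfold continued pairs
    rw [mem_filter, mem_filter, and_assoc]
    apply and_congr Iff.rfl
    apply and_congr Iff.rfl
    apply forall_congr'
    intro i
    rw [← e2]
    have h3 : (1 * (n : ℤ) + ((c i + κ i * rearranged (b i) (d i) (σ i) : ℕ) : ℤ)).toNat = n + (c i + κ i * rearranged (b i) (d i) (σ i)) := by omega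
    rw [h3]
  · intro n _
    apply prod_congr rfl
    intro i _
    rw [← e2, Pool.Agent.V11251.DS.Mo_add]
    rfl

end Pool.Agent.Results.MP_678834_nt.RearrangedSetPairs
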