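import Pool.Agent.H225.LE

/-!
# Prime pairs `p - d, p` with restricted digits, uniformly in the difference `d`

Let `b ≥ 2` be a base and let the digits of a number `n < b^K` be restricted: the `i`-th digit belongs
to a set `A i`, where the sets `A i` are arbitrary, depend on the place `i < K`, and have the only
property that the number `∏ |A i|` of these integers `n` is at least `e^{-δK} b^K`, where the constant
`δ > 0` does not depend on `b`.  (For example one digit may be excluded at every place if `b` is large;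
or a positive proportion of the digits may be fixed.)  Let `N ≥ 0` and let `d > 0` be even, both up to an
arbitrary fixed power of `b^K`.  The number of these `n` for which `N + n` and `N + n + d` are prime
should have the order of magnitude `S(d) ∏ |A i| / K²`, where `S(d)` is the product of
`(p - 1) / (p - 2)` over the odd primes `p` dividing `d` (if the last digit can be chosen such that both
numbers are prime to `b`), uniformly in `d`.

We show that this is an upper bound, and a lower bound for the number of the `n` for which `N + n` and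
`N + n + d` have at most `r` prime factors each, all of them larger than `b^{K/r}`, uniformly in `d`, `N`
and in the sets of digits.

The method is a Brun–Hooley sieve with weights, whose level of distribution is obtained from the Fourier
transform of the set of the integers with restricted digits at rationals (large sieve in blocks of
digits), see `Pool/Agent/Y816/PD`; the local densities are computed in `Pool.Agent.H225.LE`.
-/

set_option autoImplicit false

namespace Pool.Agent.Results.MP_678834_nt.RestrictedDigits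

open Finset Filter

open Classical in
/-- The number of the `n < b ^ K` in `T` whose `i`-th digit in base `b` belongs to `A i` for all
`i < K`. -/
noncomputable def count (b K : ℕ) (A : ℕ → Finset ℕ) (T : Set ℕ) : ℕ :=
  ((range (b ^ K)).filter (fun n => (∀ i < K, n / b ^ i % b ∈ A i) ∧ n ∈ T)).card

/-- The number of choices of the digits. -/
noncomputable def choices (K : ℕ) (A : ℕ → Finset ℕ) : ℝ := ∏ i ∈ range K, ((A i).card : ℝ)

/-- `m` has at most `r` prime factors, counted with multiplicity, and all of them are larger than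
`z ^ (1 / r)`. -/
def AlmostPrime (r z m : ℕ) : Prop :=
  (∀ p : ℕ, p.Prime → p ∣ m → z < p ^ r) ∧ m.primeFactorsList.length ≤ r

/-- The product of `(p - 1) / (p - 2)` over the odd prime factors `p` of `d`. -/
noncomputable def S (d : ℕ) : ℝ :=
  ∏ p ∈ d.primeFactors.filter (fun p => 2 < p), ((p : ℝ) - 1) / ((p : ℝ) - 2)

/-- **Prime pairs with restricted digits, uniformly in the difference.** -/
theorem result (D : ℕ) :
    ∃ δ : ℝ, 0 < δ ∧ ∃ r₀ : ℕ, 2 ≤ r₀ ∧ ∀ r : ℕ, r₀ ≤ r → ∀ b : ℕ, 2 ≤ b →
      ∃ κ C : ℝ, 0 < κ ∧ 0 < C ∧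
      ∀ᶠ K : ℕ in atTop, ∀ d : ℕ, Even d → 0 < d → d ≤ b ^ (D * K) → ∀ N : ℕ, N ≤ b ^ (D * K) →
        ∀ A : ℕ → Finset ℕ, (∀ i < K, A i ⊆ range b) →
        (b : ℝ) ^ K ≤ Real.exp (δ * K) * choices K A →
        ((∃ e ∈ A 0, (N + e).Coprime b ∧ (N + e + d).Coprime b) → (∃ e ∈ A (K - 1), e ≠ 0) →
          κ * choices K A * S d / (K : ℝ) ^ 2 ≤ count b K A {n | b ^ (K - 1) ≤ n ∧
            AlmostPrime r (b ^ K) (N + n) ∧ AlmostPrime r (b ^ K) (N + n + d)}) ∧
        (count b K A {n | (N + n).Prime ∧ (N + n + d).Prime} : ℝ) ≤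
          C * choices K A * S d / (K : ℝ) ^ 2 := by
  obtain ⟨δ, hδ, r₀, hr₀, h⟩ := Pool.Agent.H225.LE.main (D + 1)
  refine ⟨δ, hδ, r₀, hr₀, fun r hr b hb => ?_⟩
  obtain ⟨κ, C, hκ, hC, h1⟩ := h r hr b hb
  refine ⟨κ, C, hκ, hC, ?_⟩
  filter_upwards [h1, eventually_ge_atTop 1] with K hK hK1 d hd hd0 hdb N hN A hA hprod
  have hbK : 2 ≤ b ^ K := hb.trans (Nat.le_self_pow (by omega) b)
  have e : b ^ ((D + 1) * K) = b ^ (D * K) * b ^ K := by
    rw [← pow_add]
    congr 1
    ring
  have h4 : b ^ (D * K) * 2 ≤ b ^ (D * K) * b ^ K := Nat.mul_le_mul_left _ hbK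
  have h5 : 1 ≤ b ^ (D * K) := Nat.one_le_pow _ _ (by omega)
  have hadm : Pool.Agent.H225.LE.Adm 1 1 (d : ℤ) := by
    refine ⟨le_rfl, le_rfl, by exact_mod_cast hd0.ne', ?_, ?_, ?_, ?_⟩
    · exact isCoprime_one_left
    · rw [Nat.cast_one]
      exact isCoprime_one_left
    · rw [Nat.cast_one]
      exact isCoprime_one_left
    · rintro ⟨-, -, h6⟩
      have h7 : Odd d := by exact_mod_cast h6
      exact (Nat.not_even_iff_odd.2 h7) hd
  obtain ⟨h2, h3⟩ := hK 1 1 (d : ℤ) hadm (by omega) (by omega) (by rw [Int.natAbs_natCast]; omega)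
    (N + d) N (by push_cast; ring) (by omega) (by omega) A hA hprod
  have hS : Pool.Agent.H225.LE.S (1 * 1 * (d : ℤ).natAbs) = S d := by
    rw [Int.natAbs_natCast, one_mul, one_mul]
    rfl
  rw [hS] at h2 h3
  have e1 : ∀ t : ℕ, N + d + 1 * t = N + t + d := fun t => by ring
  have e2 : ∀ t : ℕ, N + 1 * t = N + t := fun t => by ring
  simp only [e1, e2] at h2 h3
  constructor
  · rintro ⟨x, hx, hx1, hx2⟩ htop
    refine (h2 ⟨x, hx, hx2, hx1⟩ htop).trans (Nat.cast_le.2 ?_)
    exact Pool.Agent.Y816.PD.ND_sub fun n _ hn1 hn2 => ⟨hn1, hn2.1, hn2.2.2, hn2.2.1⟩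
  · refine le_trans (Nat.cast_le.2 ?_) h3
    exact Pool.Agent.Y816.PD.ND_sub fun n _ hn1 hn2 => ⟨hn1, hn2.2, hn2.1⟩

end Pool.Agent.Results.MP_678834_nt.RestrictedDigits
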